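import Pool.Agent.Lib.MP_2e793b_nt.Iface

/-!
MP_2e793b_nt, row GP of the board mdq_modules: the good prime.
-/

set_option autoImplicit false

namespace Pool.Agent.Lib.MP_2e793b_nt.H67

open Finset Filter Topology
open scoped Classical

/-- the primes `q` such that `m q² + h` is a sum of two squares -/
noncomputable def Sq (X m : ℕ) (h : ℤ) : Finset ℕ :=
  (Icc 1 X).filter (fun q : ℕ => q.Prime ∧
    ∃ u v : ℕ, ((u ^ 2 + v ^ 2 : ℕ) : ℤ) = m * (q : ℤ) ^ 2 + h)

/-- the exceptional set of TAIL -/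
noncomputable def Tl (T b X H m : ℕ) : Finset ℕ :=
  (Icc 1 X).filter (fun q : ℕ => ∃ h : ℕ, H < h ∧ b ^ h < rep (m * q ^ 2 + h) ^ (4 * T))

/-- the choice of `X` -/
noncomputable def Xf (C : ℝ) (H : ℕ) : ℕ := ⌊Real.exp (Real.exp (H / C))⌋₊

theorem Xf_le (C : ℝ) (H : ℕ) : (Xf C H : ℝ) ≤ Real.exp (Real.exp (H / C)) :=
  Nat.floor_le (Real.exp_pos _).le

theorem lt_Xf (C : ℝ) (H : ℕ) : Real.exp (Real.exp (H / C)) < (Xf C H : ℝ) + 1 :=
  Nat.lt_floor_add_one _

/-- lower bound -/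
theorem exp_half_le {C : ℝ} (hC : 0 < C) {H : ℕ} (hH : 2 * C ≤ H) :
    Real.exp (Real.exp (H / C / 2)) ≤ (Xf C H : ℝ) := by
  have hs : 2 ≤ (H : ℝ) / C := by
    rw [le_div_iff₀ hC]; exact hH
  set s : ℝ := (H : ℝ) / C with hsdef
  have h1 : Real.exp (s / 2) + 1 ≤ Real.exp s := by
    have h2 : Real.exp s = Real.exp (s / 2) * Real.exp (s / 2) := by
      rw [← Real.exp_add]; congr 1; ring
    have h3 : 2 ≤ Real.exp (s / 2) := by
      have := Real.add_one_le_exp (s / 2)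
      linarith
    nlinarith
  have h4 : Real.exp (Real.exp (s / 2)) + 1 ≤ Real.exp (Real.exp s) := by
    have h5 : Real.exp (Real.exp (s / 2) + 1) ≤ Real.exp (Real.exp s) := Real.exp_le_exp.2 h1
    have h6 : Real.exp (Real.exp (s / 2) + 1) = Real.exp (Real.exp (s / 2)) * Real.exp 1 :=
      Real.exp_add _ _
    have h7 : 2 ≤ Real.exp 1 := by
      have := Real.add_one_le_exp (1 : ℝ)
      linarith
    have h8 : 1 ≤ Real.exp (Real.exp (s / 2)) := Real.one_le_exp (Real.exp_pos _).le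
    nlinarith
  have h9 := lt_Xf C H
  rw [← hsdef] at h9
  linarith

theorem half_le_loglog {C : ℝ} (hC : 0 < C) {H : ℕ} (hH : 2 * C ≤ H) :
    (H : ℝ) ≤ 2 * C * Real.log (Real.log (Xf C H)) ∧ Real.exp (H / C / 2) ≤ Real.log (Xf C H) := by
  have h1 := exp_half_le hC hH
  have h2 : Real.exp (H / C / 2) ≤ Real.log (Xf C H) := by
    rw [Real.le_log_iff_exp_le (lt_of_lt_of_le (Real.exp_pos _) h1)]
    exact h1
  have h3 : (H : ℝ) / C / 2 ≤ Real.log (Real.log (Xf C H)) := by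
    rw [Real.le_log_iff_exp_le (lt_of_lt_of_le (Real.exp_pos _) h2)]
    exact h2
  refine ⟨?_, h2⟩
  have h4 : (H : ℝ) = 2 * C * (H / C / 2) := by
    field_simp
  rw [h4]
  exact mul_le_mul_of_nonneg_left h3 (by positivity)

theorem loglog_le {C : ℝ} (hC : 0 < C) {H : ℕ} (hH : 2 * C ≤ H) :
    C * Real.log (Real.log (Xf C H)) ≤ H := by
  have h1 := exp_half_le hC hH
  obtain ⟨-, h2⟩ := half_le_loglog hC hH
  have hX : (0 : ℝ) < Xf C H := lt_of_lt_of_le (Real.exp_pos _) h1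
  have hL : 0 < Real.log (Xf C H) := lt_of_lt_of_le (Real.exp_pos _) h2
  have h3 : Real.log (Xf C H) ≤ Real.exp (H / C) := by
    rw [Real.log_le_iff_le_exp hX]
    exact Xf_le C H
  have h4 : Real.log (Real.log (Xf C H)) ≤ H / C := by
    rw [Real.log_le_iff_le_exp hL]
    exact h3
  calc C * Real.log (Real.log (Xf C H)) ≤ C * (H / C) := mul_le_mul_of_nonneg_left h4 hC.le
    _ = H := by field_simp

/-- `log X` tends to infinity with `H` -/
theorem tendsto_log {C : ℝ} (hC : 0 < C) :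
    Tendsto (fun H : ℕ => Real.log (Xf C H)) atTop atTop := by
  have h1 : Tendsto (fun H : ℕ => Real.exp ((H : ℝ) / C / 2)) atTop atTop := by
    apply Real.tendsto_exp_atTop.comp
    have h2 : Tendsto (fun H : ℕ => (H : ℝ)) atTop atTop := tendsto_natCast_atTop_atTop
    exact (h2.atTop_div_const hC).atTop_div_const (by norm_num)
  refine tendsto_atTop_mono' atTop ?_ h1
  filter_upwards [eventually_ge_atTop ⌈2 * C⌉₊] with H hH
  exact (half_le_loglog hC ((Nat.le_ceil _).trans (by exact_mod_cast hH))).2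

theorem tendsto_Xf {C : ℝ} (hC : 0 < C) : Tendsto (fun H : ℕ => Xf C H) atTop atTop := by
  rw [← tendsto_natCast_atTop_iff (R := ℝ)]
  refine tendsto_atTop_mono' atTop ?_ (tendsto_log hC)
  filter_upwards with H
  exact (Real.log_le_self (by positivity))

/-- the final inequality in the variable `y = log X` -/
theorem tendsto_f (C δ : ℝ) (hδ : 0 < δ) :
    Tendsto (fun y : ℝ => 4 * C * (Real.log y / y ^ δ) + 1 / y +
      2 * C * (Real.log y * y / Real.exp y)) atTop (𝓝 0) := by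
  have h1 : Tendsto (fun y : ℝ => Real.log y / y ^ δ) atTop (𝓝 0) :=
    (isLittleO_log_rpow_atTop hδ).tendsto_div_nhds_zero
  have h2 : Tendsto (fun y : ℝ => 1 / y) atTop (𝓝 0) := by
    simpa using tendsto_inv_atTop_zero (𝕜 := ℝ)
  have h3 : Tendsto (fun y : ℝ => Real.log y * y / Real.exp y) atTop (𝓝 0) := by
    have h4 : Tendsto (fun y : ℝ => y ^ 2 / Real.exp y) atTop (𝓝 0) := by
      have := Real.tendsto_pow_mul_exp_neg_atTop_nhds_zero 2
      refine this.congr fun y => ?_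
      rw [Real.exp_neg]; rfl
    refine tendsto_of_tendsto_of_tendsto_of_le_of_le' tendsto_const_nhds h4 ?_ ?_
    · filter_upwards [eventually_ge_atTop (1 : ℝ)] with y hy
      have := Real.log_nonneg hy
      positivity
    · filter_upwards [eventually_ge_atTop (1 : ℝ)] with y hy
      have h5 : Real.log y ≤ y := Real.log_le_self (by linarith)
      have h6 : Real.log y * y ≤ y ^ 2 := by nlinarith
      exact div_le_div_of_nonneg_right h6 (Real.exp_pos _).le
  have := ((h1.const_mul (4 * C)).add h2).add (h3.const_mul (2 * C))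
  simpa using this

theorem not_isSquare_int {h m : ℕ} (hs : ¬ IsSquare (h * m)) : ¬ IsSquare ((h : ℤ) * (m : ℤ)) := by
  intro hq
  apply hs
  obtain ⟨r, hr⟩ := hq
  refine ⟨r.natAbs, ?_⟩
  have h1 : ((h * m : ℕ) : ℤ) = r * r := by push_cast; exact hr
  have h2 := congrArg Int.natAbs h1
  rw [Int.natAbs_natCast, Int.natAbs_mul] at h2
  exact h2

theorem not_isSquare_neg {h m : ℕ} (h0 : 0 < h) (m0 : 0 < m) :
    ¬ IsSquare (-(h : ℤ) * (m : ℤ)) := by
  intro hq
  have h1 := hq.nonneg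
  have h2 : (0 : ℤ) < (h : ℤ) * m := by positivity
  linarith

/-- Row GP. -/
theorem gp (hPap : PapStmt) (hSqc : SqcStmt) (hTail : TailStmt) : GpStmt := by
  intro T b hT hb
  obtain ⟨c, X₀, hc, hP⟩ := hPap T hT
  obtain ⟨δ, X₁, hδ, hS⟩ := hSqc
  obtain ⟨C₁, X₂, hC, hTl⟩ := hTail T b hT hb
  have hy := tendsto_log hC
  have hX := tendsto_Xf hC
  have hll : Tendsto (fun y : ℝ => Real.log y) atTop atTop := Real.tendsto_log_atTop
  -- the conditions in y
  have e1 : ∀ᶠ y : ℝ in atTop, 4 * C₁ * (Real.log y / y ^ δ) + 1 / y +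
      2 * C₁ * (Real.log y * y / Real.exp y) < c :=
    (tendsto_f C₁ δ hδ).eventually (gt_mem_nhds hc)
  have e2 : ∀ᶠ y : ℝ in atTop, 4 * (2 * C₁) ^ 3 ≤ Real.log y ∧ 1 ≤ Real.log y :=
    (hll.eventually_ge_atTop _).and (hll.eventually_ge_atTop _)
  have e3 : ∀ᶠ y : ℝ in atTop, (2 * C₁) ^ 2 * Real.log y ^ 2 ≤ y := by
    have h1 : (fun y : ℝ => Real.log y ^ 2) =o[atTop] (fun y : ℝ => y) :=
      Real.isLittleO_pow_log_id_atTop
    have h2 : (fun y : ℝ => (2 * C₁) ^ 2 * Real.log y ^ 2) =o[atTop] (fun y : ℝ => y) :=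
      h1.const_mul_left _
    filter_upwards [h2.bound (show (0 : ℝ) < 1 by norm_num), eventually_ge_atTop (0 : ℝ)]
      with y h3 h4
    rw [Real.norm_of_nonneg (by positivity), Real.norm_of_nonneg h4, one_mul] at h3
    exact h3
  have E := (((hy.eventually e1).and (hy.eventually e2)).and (hy.eventually e3)).and
    (((hX.eventually_ge_atTop X₀).and (hX.eventually_ge_atTop X₁)).and
      ((hX.eventually_ge_atTop X₂).and (eventually_ge_atTop ⌈2 * C₁⌉₊)))
  obtain ⟨H₀, hH₀⟩ := eventually_atTop.1 E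
  refine ⟨H₀, fun H hH m hm hmH hsq => ?_⟩
  obtain ⟨⟨⟨f1, f2, f2'⟩, f3⟩, ⟨g0, g1⟩, g2, g3⟩ := hH₀ H hH
  have hH2 : 2 * C₁ ≤ (H : ℝ) := (Nat.le_ceil _).trans (by exact_mod_cast g3)
  obtain ⟨k1, k2⟩ := half_le_loglog hC hH2
  have k3 := loglog_le hC hH2
  set X : ℕ := Xf C₁ H with hXdef
  set y : ℝ := Real.log X with hydef
  have hy0 : 0 < y := lt_of_lt_of_le (Real.exp_pos _) k2
  have hXpos : (0 : ℝ) < X := by
    have := exp_half_le hC hH2
    exact lt_of_lt_of_le (Real.exp_pos _) this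
  have hexp : Real.exp y = X := Real.exp_log hXpos
  have hl0 : 0 ≤ Real.log y := by linarith
  have hHr : (0 : ℝ) ≤ H := Nat.cast_nonneg H
  -- H^3 bound
  have hH3 : 4 * (H : ℝ) ^ 3 ≤ Real.log y ^ 6 := by
    have a1 : (H : ℝ) ^ 3 ≤ (2 * C₁ * Real.log y) ^ 3 := pow_le_pow_left₀ hHr k1 3
    have a2 : (2 * C₁ * Real.log y) ^ 3 = (2 * C₁) ^ 3 * Real.log y ^ 3 := by ring
    have a3 : Real.log y ≤ Real.log y ^ 3 := by nlinarith [sq_nonneg (Real.log y), f2']
    have a4 : 4 * (2 * C₁) ^ 3 * Real.log y ^ 3 ≤ Real.log y ^ 3 * Real.log y ^ 3 :=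
      mul_le_mul_of_nonneg_right (f2.trans a3) (by positivity)
    calc 4 * (H : ℝ) ^ 3 ≤ 4 * ((2 * C₁) ^ 3 * Real.log y ^ 3) := by rw [← a2]; linarith
      _ = 4 * (2 * C₁) ^ 3 * Real.log y ^ 3 := by ring
      _ ≤ Real.log y ^ 3 * Real.log y ^ 3 := a4
      _ = Real.log y ^ 6 := by ring
  have hmr : (m : ℝ) ≤ (H : ℝ) ^ 2 := by exact_mod_cast hmH
  -- the sets
  have hSb : ∀ h : ℕ, 0 < h → h ≤ H → ∀ g : ℤ, g = h ∨ g = -h →
      ((Sq X m g).card : ℝ) ≤ X / y ^ (1 + δ) := by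
    intro h h0 hhH g hg
    have hgabs : g.natAbs = h := by
      rcases hg with rfl | rfl <;> simp
    have hg0 : g ≠ 0 := by
      intro h00
      rw [h00] at hgabs
      simp at hgabs
      omega
    refine hS X m g g1 hm hg0 ?_ ?_
    · rcases hg with rfl | rfl
      · exact not_isSquare_int (hsq h h0 hhH)
      · exact not_isSquare_neg h0 hm
    · rw [hgabs]
      have b1 : (h : ℝ) ≤ H := by exact_mod_cast hhH
      calc (4 : ℝ) * m * h ≤ 4 * (H : ℝ) ^ 2 * H := by gcongr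
        _ = 4 * (H : ℝ) ^ 3 := by ring
        _ ≤ Real.log y ^ 6 := hH3
  have hTb : ((Tl T b X H m).card : ℝ) ≤ X / y ^ 2 := by
    refine hTl X H m g2 hm ?_ k3
    calc (m : ℝ) ≤ (H : ℝ) ^ 2 := hmr
      _ ≤ (2 * C₁ * Real.log y) ^ 2 := pow_le_pow_left₀ hHr k1 2
      _ = (2 * C₁) ^ 2 * Real.log y ^ 2 := by ring
      _ ≤ y := f3
  by_contra hcon
  push Not at hcon
  -- every prime of the progression is bad
  have hsub : (Icc 1 X).filter (fun p => p.Prime ∧ p % (4 * T) = 4 * T - 1) ⊆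
      (((Icc 1 H).biUnion (fun h => Sq X m h)) ∪ ((Icc 1 H).biUnion (fun h => Sq X m (-(h : ℤ)))))
        ∪ (Tl T b X H m ∪ range H) := by
    intro q hq
    rw [mem_filter] at hq
    obtain ⟨hqX, hqp, hqT⟩ := hq
    by_cases hqH : q < H
    · exact mem_union_right _ (mem_union_right _ (mem_range.2 hqH))
    push Not at hqH
    have hHm : H ≤ m * q ^ 2 := by nlinarith [hqp.one_lt]
    by_cases hR : ∀ u v : ℕ, u ^ 2 + v ^ 2 ≠ m * q ^ 2 →
        u ^ 2 + v ^ 2 + H < m * q ^ 2 ∨ m * q ^ 2 + H < u ^ 2 + v ^ 2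
    · obtain ⟨h, hh, hbad⟩ := hcon q hqp hqT hHm hR
      refine mem_union_right _ (mem_union_left _ ?_)
      rw [Tl, mem_filter]
      exact ⟨hqX, h, hh, hbad⟩
    · push Not at hR
      obtain ⟨u, v, hne, h1, h2⟩ := hR
      apply mem_union_left
      rcases Nat.lt_or_gt_of_ne hne with hlt | hgt
      · apply mem_union_right
        rw [mem_biUnion]
        refine ⟨m * q ^ 2 - (u ^ 2 + v ^ 2), ?_, ?_⟩
        · rw [mem_Icc]; omega
        · rw [Sq, mem_filter]
          refine ⟨hqX, hqp, u, v, ?_⟩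
          rw [Nat.cast_sub hlt.le]
          push_cast
          ring
      · apply mem_union_left
        rw [mem_biUnion]
        refine ⟨(u ^ 2 + v ^ 2) - m * q ^ 2, ?_, ?_⟩
        · rw [mem_Icc]; omega
        · rw [Sq, mem_filter]
          refine ⟨hqX, hqp, u, v, ?_⟩
          rw [Nat.cast_sub hgt.le]
          push_cast
          ring
  have hcard := card_le_card hsub
  have hc1 : ((((Icc 1 H).biUnion (fun h => Sq X m h)).card : ℕ) : ℝ) ≤ H * (X / y ^ (1 + δ)) := by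
    calc ((((Icc 1 H).biUnion (fun h => Sq X m h)).card : ℕ) : ℝ)
        ≤ ((∑ h ∈ Icc 1 H, (Sq X m h).card : ℕ) : ℝ) := by
          exact_mod_cast card_biUnion_le
      _ = ∑ h ∈ Icc 1 H, ((Sq X m h).card : ℝ) := by push_cast; rfl
      _ ≤ ∑ _h ∈ Icc 1 H, (X / y ^ (1 + δ)) := by
          apply sum_le_sum
          intro h hh
          rw [mem_Icc] at hh
          exact hSb h hh.1 hh.2 _ (Or.inl rfl)
      _ = H * (X / y ^ (1 + δ)) := by simp
  have hc2 : ((((Icc 1 H).biUnion (fun h => Sq X m (-(h : ℤ)))).card : ℕ) : ℝ) ≤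
      H * (X / y ^ (1 + δ)) := by
    calc ((((Icc 1 H).biUnion (fun h => Sq X m (-(h : ℤ)))).card : ℕ) : ℝ)
        ≤ ((∑ h ∈ Icc 1 H, (Sq X m (-(h : ℤ))).card : ℕ) : ℝ) := by
          exact_mod_cast card_biUnion_le
      _ = ∑ h ∈ Icc 1 H, ((Sq X m (-(h : ℤ))).card : ℝ) := by push_cast; rfl
      _ ≤ ∑ _h ∈ Icc 1 H, (X / y ^ (1 + δ)) := by
          apply sum_le_sum
          intro h hh
          rw [mem_Icc] at hh
          exact hSb h hh.1 hh.2 _ (Or.inr rfl)
      _ = H * (X / y ^ (1 + δ)) := by simp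
  have hall : ((((Icc 1 X).filter (fun p => p.Prime ∧ p % (4 * T) = 4 * T - 1)).card : ℕ) : ℝ) ≤
      H * (X / y ^ (1 + δ)) + H * (X / y ^ (1 + δ)) + (X / y ^ 2 + H) := by
    have d1 := card_union_le (((Icc 1 H).biUnion (fun h => Sq X m h)) ∪
      ((Icc 1 H).biUnion (fun h => Sq X m (-(h : ℤ))))) (Tl T b X H m ∪ range H)
    have d2 := card_union_le ((Icc 1 H).biUnion (fun h => Sq X m h))
      ((Icc 1 H).biUnion (fun h => Sq X m (-(h : ℤ))))
    have d3 := card_union_le (Tl T b X H m) (range H)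
    rw [card_range] at d3
    have d4 : (((Icc 1 X).filter (fun p => p.Prime ∧ p % (4 * T) = 4 * T - 1)).card : ℕ) ≤
        ((Icc 1 H).biUnion (fun h => Sq X m h)).card +
        ((Icc 1 H).biUnion (fun h => Sq X m (-(h : ℤ)))).card + ((Tl T b X H m).card + H) := by
      omega
    have d5 : ((((Icc 1 X).filter (fun p => p.Prime ∧ p % (4 * T) = 4 * T - 1)).card : ℕ) : ℝ) ≤
        (((Icc 1 H).biUnion (fun h => Sq X m h)).card : ℝ) +
        (((Icc 1 H).biUnion (fun h => Sq X m (-(h : ℤ)))).card : ℝ) +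
        (((Tl T b X H m).card : ℝ) + H) := by
      exact_mod_cast d4
    linarith
  have hP' := hP X g0
  -- compare
  have hyd : (0 : ℝ) < y ^ δ := Real.rpow_pos_of_pos hy0 δ
  have hy1 : y ^ (1 + δ) = y * y ^ δ := by
    rw [Real.rpow_add hy0, Real.rpow_one]
  have hfin : H * (X / y ^ (1 + δ)) + H * (X / y ^ (1 + δ)) + (X / y ^ 2 + H) < c * X / y := by
    have t1 : H * (X / y ^ (1 + δ)) + H * (X / y ^ (1 + δ)) + (X / y ^ 2 + H) =
        (X / y) * (2 * H / y ^ δ + 1 / y + H * y / X) := by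
      rw [hy1]
      field_simp
      ring
    have t2 : 2 * (H : ℝ) / y ^ δ ≤ 4 * C₁ * (Real.log y / y ^ δ) := by
      rw [← mul_div_assoc]
      apply div_le_div_of_nonneg_right _ hyd.le
      linarith
    have t3 : (H : ℝ) * y / X ≤ 2 * C₁ * (Real.log y * y / Real.exp y) := by
      rw [hexp, ← mul_div_assoc]
      apply div_le_div_of_nonneg_right _ hXpos.le
      have := mul_le_mul_of_nonneg_right k1 hy0.le
      linarith
    have t4 : 2 * (H : ℝ) / y ^ δ + 1 / y + H * y / X < c := by linarith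
    rw [t1]
    have t5 : c * X / y = (X / y) * c := by ring
    rw [t5]
    exact mul_lt_mul_of_pos_left t4 (by positivity)
  linarith

end Pool.Agent.Lib.MP_2e793b_nt.H67
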